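import Pool.Agent.P.MP_08fd93_co.FA.B2

/-! Hubs on both sides of a spike: the root sees the far end of a side edge. -/

set_option autoImplicit false

namespace Pool.Agent.P.MP_08fd93_co.FI

open OV FN FK FL FZ PkPrtP FB FE FA

variable {J : Type} {G : VD J} {φ : Vx J → Vx J} {v l r : Vx J}

/-- One flow: `g` is the source of the row zero, nothing arrives on it; `s` is the source and `t`
the sink of the row one. -/
theorem one_flow (h : SR G v l r) (hφ : PH (FL G) G.Pr φ) {g s t : Vx J} (hg : g ∈ G.L 0)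
    (hs : s ∈ G.L 1) (ht : t ∈ G.L 1) (n : s.1 ≠ t.1) (e : φ g = s)
    (em : ∀ y ∈ G.L (-1), (φ y).1 ≠ g.1) :
    ∃ E, Pin (FL G) E 0 {g.1} ∧ g.1 ∈ E.Pn ∧ s.1 ∈ E.Pn ∧ t.1 ∈ E.Sk ∧
      Cls G φ v l r E {s.1, t.1} := by
  have hF := h.sv.lay
  obtain ⟨b, H⟩ := lb_ex hF hφ h.n3 h.rows.wp.ev
  have b2 := H.b2
  obtain ⟨m, hm⟩ : ∃ m : ℕ, (FL G).η b = m + 2 := ⟨((FL G).η b - 2).toNat, by omega⟩
  have hm' : G.η b = (m + 1 : ℕ) + 1 := hm.trans (by push_cast; ring)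
  obtain ⟨x, hx, -, k⟩ := flow1' h H hm' (k0 := 1) (by omega) (s0 := s) hs
  have nx : g.1 ≠ (φ x).1 := fun o => em _ (H.last' hm hx) (by
    rw [hφ.eqv _ _ (hF.la hx)]
    exact o.symm)
  obtain ⟨E, ag, -, -, cl⟩ := k (fun i => Nat.casesOn i (r1 g (φ x)) fun _ => r1 s t) {s.1, t.1}
    (fun i _ => by
      rcases i with _ | i
      · exact H.rw1 hg (H.wrap hm' (by exact_mod_cast H.up hx)) nx
      · obtain rfl : i = 0 := by omega
        exact H.rw1 hs ⟨t, ht, rfl⟩ n)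
    (r1_pn s t).subset (fun i _ => by
      obtain rfl : i = 0 := by omega
      exact (r1_pn g (φ x)).symm ▸ lnk1 h hφ (hF.la hg) (Or.inl (Or.inl (congrArg _ e))))
    (lnk1 (B := r1 g (φ x)) h hφ (hF.la hx) (Or.inr (Or.inl rfl)))
  have a0 : Agr (FL G) E 0 (r1 g (φ x)) := ag 0 (by omega)
  have a1 : Agr (FL G) E 1 (r1 s t) := ag 1 le_rfl
  exact ⟨E, r1_pn g (φ x) ▸ a0.pin, (a0.pn hg).2 (Or.inl rfl), (a1.pn hs).2 (Or.inl rfl),
    (a1 t ht).2.1.2 rfl, cl⟩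

/-- The root sees the right end of the right side edge. -/
theorem hh_k1 [Fintype J] (h : SR G v l r) (hφ : PH (FL G) G.Pr φ) (n : l.1 ≠ r.1)
    (a : G.Γ.Adj v (G.nx r)) (e : φ (G.xl v) = r) (em : ∀ y ∈ G.L (-1), (φ y).1 ≠ (G.xl v).1) :
    ∃ c, Col1 G.Γ ∅ c := by
  have hF := h.sv.lay
  have u0 := h.u0.1
  obtain ⟨E, pin, p0, p1, p2, cl⟩ := one_flow h hφ u0 h.r1 h.l1 n.symm e em
  refine SK.col h hφ (cl v.1 True False (Or.inl trivial) (Or.inl trivial) (Or.inr (Or.inr p0))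
    (fun _ => Or.inr rfl) False.elim ?_)
  rintro _ (rfl | rfl)
  · have m := h.pe_row hφ (hF.la u0) e
    have D := h.sv.bc_disc (hF.la h.r1)
    refine ⟨r, hF.la h.r1, rfl, Top.spe (h.spe_sep' (hF.la h.r1) (st0_pin p1)
      (ss_row h hφ pin (j := 0) h.r1 (fun g _ g2 g3 => ?_) (fun _ o => absurd o.symm n)
        False.elim) m D.px.ha ?_ fun x k => D.px.lo x (PE.ends m k))⟩
    · rw [hφ.inj1 (hF.la u0) (Eq.symm g2) (e.trans g3.symm)]
      rfl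
    · show G.Γ.Adj _ (G.an r)
      exact h.hr.2.symm ▸ a.symm
  · refine ⟨l, hF.la h.l1, rfl, top_one (ss_row h hφ pin (j := 0) h.l1 (fun g _ g2 g3 => ?_)
      (fun _ _ => rfl) False.elim) (Or.inl p2)⟩
    exact absurd (g3 ▸ e ▸ (hφ.fst (hF.la u0) (Eq.symm g2)).symm) n

/-- The root sees the left end of the left side edge. -/
theorem hh_k1l [Fintype J] (h : SR G v l r) (hφ : PH (FL G) G.Pr φ) (n : l.1 ≠ r.1)
    (a : G.Γ.Adj v l) (e : φ (pv (FL G) (G.xl v)) = l)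
    (em : ∀ y ∈ G.L (-1), (φ y).1 ≠ (pv (FL G) (G.xl v)).1) : ∃ c, Col1 G.Γ ∅ c := by
  have hF := h.sv.lay
  have u0 := (pv_mem hF h.u0.1).1
  obtain ⟨E, pin, p0, p1, p2, cl⟩ := one_flow h hφ u0 h.l1 h.r1 n e em
  refine SK.col h hφ (cl v.1 False True (Or.inr trivial) (Or.inr (Or.inr p0)) (Or.inl trivial)
    False.elim (fun _ => Or.inr rfl) ?_)
  rintro _ (rfl | rfl)
  · have m := h.pe_row hφ (hF.la u0) e
    have D := h.sv.bc_disc (hF.la h.l1)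
    refine ⟨l, hF.la h.l1, rfl, Top.spe (h.spe_sep (hF.la h.l1) (st0_pin p1)
      (ss_row h hφ pin (j := 0) h.l1 (fun g _ g2 g3 => ?_) False.elim
        fun _ o => absurd o n) m D.px.hb ?_ fun x k => D.px.hi x (PE.ends m k))⟩
    · rw [hφ.inj1 (hF.la u0) (Eq.symm g2) (e.trans g3.symm)]
      rfl
    · show G.Γ.Adj _ (G.an (G.nx l))
      exact h.hl.2.symm ▸ a.symm
  · refine ⟨r, hF.la h.r1, rfl, top_one (ss_row h hφ pin (j := 0) h.r1 (fun g _ g2 g3 => ?_)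
      False.elim fun _ _ => rfl) (Or.inl p2)⟩
    exact absurd (g3 ▸ e ▸ hφ.fst (hF.la u0) (Eq.symm g2)) n

end Pool.Agent.P.MP_08fd93_co.FI
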